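import Pool.Agent.Helper59.BergmanProof

set_option autoImplicit false

/-!
# The Bergman property for three polymorphism clones

* The polymorphism clone of the rational Urysohn space does not have the Bergman property.
* The polymorphism clone of the rational Urysohn sphere has the Bergman property.
* The polymorphism clone of the rational order has the Bergman property.
-/

namespace Pool.Agent.Results.MP_c74e51_al.BergmanPol

open Pool.Agent.Helper59.Bergman

/-- Full answer: `Pol U_Q` does not have the Bergman property, `Pol S_Q` has it and
`Pol (ℚ, ≤)` has it. -/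
theorem result :
    ((∃ (X : Type) (_ : MetricSpace X), IsFraisseLimit ratDist X) ∧
      ∀ (X : Type) [MetricSpace X], IsFraisseLimit ratDist X →
        ¬ BergmanProperty (Pol (metricRel X))) ∧
    ((∃ (X : Type) (_ : MetricSpace X), IsFraisseLimit ratDistOne X) ∧
      ∀ (X : Type) [MetricSpace X], IsFraisseLimit ratDistOne X →
        BergmanProperty (Pol (metricRel X))) ∧
    BergmanProperty (Pol (fun _ : Unit => ((· ≤ ·) : ℚ → ℚ → Prop))) :=
  ⟨⟨exists_rationalUrysohn, fun _ _ h => not_bergman_rationalUrysohn h⟩,
    ⟨exists_rationalUrysohnSphere, fun _ _ h => bergman_rationalUrysohnSphere h⟩,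
    bergman_rationalOrder⟩

end Pool.Agent.Results.MP_c74e51_al.BergmanPol
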